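import Pool.Agent.Lib.MP_af3d17_cn.PartOne
import Pool.Agent.Lib.MP_af3d17_cn.PartTwo
import Pool.Agent.Lib.MP_af3d17_nt_h98.Seq
import Pool.Agent.Lib.MP_af3d17_nt_h98.Pair
import Pool.Agent.Lib.MP_af3d17_nt_h98.Speiser1
import Pool.Agent.Lib.MP_af3d17_nt_h98.Speiser2

/-!
# MP_af3d17_nt: small gaps and zeros of `ζ'` near the critical line, counted at all scales
-/

set_option autoImplicit false

namespace Pool.Agent.Results.MP_af3d17_nt.DerivativeCounting

open Filter Topology

/-- The nontrivial zeros of the Riemann zeta function with positive ordinate. -/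
def IsUpperZero (ρ : ℂ) : Prop := riemannZeta ρ = 0 ∧ 0 < ρ.re ∧ ρ.re < 1 ∧ 0 < ρ.im

/-- `γ 0 ≤ γ 1 ≤ γ 2 ≤ ⋯` are the ordinates of the nontrivial zeros with positive ordinate, each
repeated according to multiplicity: every real number `t` occurs in the sequence as many times as
there are pairs `(ρ, k)` with `ρ` such a zero of ordinate `t` and `k` smaller than its order.
(`γ n` is the number `γ_{n+1}` of the problem.) -/
structure IsOrdinateSeq (γ : ℕ → ℝ) : Prop where
  mono : Monotone γ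
  count : ∀ t : ℝ, {n | γ n = t}.encard = {p : ℂ × ℕ | IsUpperZero p.1 ∧ p.1.im = t ∧
    (p.2 : ℕ∞) < analyticOrderAt riemannZeta p.1}.encard

/-- The indices of the gaps of length at most `x` that begin at height at most `T`. -/
def smallGaps (γ : ℕ → ℝ) (T x : ℝ) : Set ℕ := {n | γ n ≤ T ∧ γ (n + 1) - γ n ≤ x}

/-- The zeros `β' + iγ'` of `ζ'` with `0 < γ' ≤ T` and `-1 < β' ≤ 1/2 + y`, each repeated according
to its multiplicity: the pairs `(s, k)` with `s` such a zero and `k` smaller than its order. -/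
def derivZeros (T y : ℝ) : Set (ℂ × ℕ) :=
  {p | (-1 < p.1.re ∧ p.1.re ≤ 1 / 2 + y ∧ 0 < p.1.im ∧ p.1.im ≤ T) ∧
    (p.2 : ℕ∞) < analyticOrderAt (deriv riemannZeta) p.1}

/-- `log (γ_{n+2} - γ_{n+1}) / log (n + 1)`, with `log 0 = -∞`. -/
noncomputable def gapExponent (γ : ℕ → ℝ) (n : ℕ) : EReal :=
  if γ (n + 1) = γ n then ⊥ else ((Real.log (γ (n + 1) - γ n) / Real.log (n + 1) : ℝ) : EReal)

/-- The exponent `α` of the problem. -/
noncomputable def alpha (γ : ℕ → ℝ) : EReal := liminf (gapExponent γ) atTop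

/-- `log (Re ρ - 1/2) / log (Im ρ)`, with `log x = -∞` for `x ≤ 0`. -/
noncomputable def derivExponent (ρ : ℂ) : EReal :=
  if ρ.re ≤ 1 / 2 then ⊥ else ((Real.log (ρ.re - 1 / 2) / Real.log ρ.im : ℝ) : EReal)

/-- The exponent `θ`: the liminf of `log (Re ρ' - 1/2) / log (Im ρ')` over the zeros `ρ'` of `ζ'`,
as `Im ρ' → +∞`. -/
noncomputable def theta : EReal :=
  liminf derivExponent (comap Complex.im atTop ⊓ 𝓟 {ρ | deriv riemannZeta ρ = 0})

/-- Let `G(T, x)` be the number of gaps of length at most `x` up to height `T`, and `D(T, y)` the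
number of zeros of `ζ'` with `0 < γ' ≤ T` and `-1 < β' ≤ 1/2 + y` (both are finite). Without any
hypothesis, for `T ≥ C` and `0 ≤ x ≤ 1 / (C log² T)`,
`G(T, x) ≤ C (D(T, C x² log T) + log T)` and `D(T, x²) ≤ C (G(T, C x log T) + log T)`; and, for the
extreme values, `2 α = θ`. -/
theorem result (γ : ℕ → ℝ) (hγ : IsOrdinateSeq γ) :
    (∀ T x y : ℝ, y ≤ 1 / 20 → (smallGaps γ T x).Finite ∧ (derivZeros T y).Finite) ∧
    (∃ C : ℝ, 1 ≤ C ∧ ∀ T x : ℝ, C ≤ T → 0 ≤ x → x ≤ 1 / (C * (Real.log T) ^ 2) →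
      ((smallGaps γ T x).ncard : ℝ)
        ≤ C * ((derivZeros T (C * x ^ 2 * Real.log T)).ncard + Real.log T) ∧
      ((derivZeros T (x ^ 2)).ncard : ℝ)
        ≤ C * ((smallGaps γ T (C * x * Real.log T)).ncard + Real.log T)) ∧
    2 * alpha γ = theta := by
  have hγ' : ZP.IsOrdinateSeq γ := ⟨hγ.mono, hγ.count⟩
  have hfinG : ∀ T x : ℝ, (smallGaps γ T x).Finite := fun T x =>
    (ZC.finite_gamma hγ' T).subset fun n hn => hn.1
  have hG : ∀ T x : ℝ, (smallGaps γ T x).ncard = ZC.gapCount γ T x := fun _ _ => rfl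
  have hD : ∀ T y : ℝ, (derivZeros T y).ncard = ZC.derivCount T y := fun _ _ => rfl
  refine ⟨fun T x y hy => ⟨hfinG T x, ZC.derivSet_finite hy⟩, ?_, ?_⟩
  · obtain ⟨C1, hC1, h1⟩ := ZC.part_one hγ'
    obtain ⟨C2, hC2, h2⟩ := ZC.part_two hγ'
    set C : ℝ := max (max C1 C2) 10 with hC
    have hC1' : C1 ≤ C := (le_max_left _ _).trans (le_max_left _ _)
    have hC2' : C2 ≤ C := (le_max_right _ _).trans (le_max_left _ _)
    have hC10 : 10 ≤ C := le_max_right _ _
    refine ⟨C, by linarith, fun T x hT hx hx1 => ?_⟩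
    have hlog : 1 ≤ Real.log T := by
      rw [Real.le_log_iff_exp_le (by linarith)]
      have := Real.exp_one_lt_d9
      linarith
    have hxT : C * x * (Real.log T) ^ 2 ≤ 1 := by
      rw [le_div_iff₀ (by positivity)] at hx1
      linarith
    have hCx : C * x ≤ 1 := by
      have : C * x * 1 ≤ C * x * (Real.log T) ^ 2 := by
        gcongr
        nlinarith
      linarith
    have hx10 : x ≤ 1 / 10 := by
      have : 10 * x ≤ C * x := by gcongr
      linarith
    have hy0 : C * x ^ 2 * Real.log T ≤ 1 / 20 := by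
      have hl : 0 < Real.log T := by linarith
      have e1 : C * x ^ 2 * Real.log T * Real.log T ≤ 1 / 10 := by
        calc C * x ^ 2 * Real.log T * Real.log T = x * (C * x * (Real.log T) ^ 2) := by ring
          _ ≤ x * 1 := by gcongr
          _ ≤ 1 / 10 := by linarith
      have hT10 : 10 ≤ T := by linarith
      have hl2 : 2 ≤ Real.log T := by
        rw [Real.le_log_iff_exp_le (by linarith)]
        have h8 : Real.exp 2 = Real.exp 1 * Real.exp 1 := by rw [← Real.exp_add]; norm_num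
        have h9 := Real.exp_one_lt_d9
        rw [h8]
        nlinarith [Real.exp_pos 1]
      have e2 : C * x ^ 2 * Real.log T * 2 ≤ C * x ^ 2 * Real.log T * Real.log T := by gcongr
      linarith
    constructor
    · have e1 := h1 T x (hC1'.trans hT) hx (by
        refine le_trans ?_ hxT
        gcongr)
      have e2 : ZC.derivCount T (C1 * x ^ 2 * Real.log T) ≤ ZC.derivCount T (C * x ^ 2 * Real.log T) := by
        refine ZC.cnt_mono ?_ (ZC.derivSet_finite hy0)
        rintro s ⟨a1, a2, a3, a4⟩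
        have a5 : C1 * x ^ 2 * Real.log T ≤ C * x ^ 2 * Real.log T := by gcongr
        exact ⟨a1, by linarith, a3, a4⟩
      have e3 : (ZC.derivCount T (C1 * x ^ 2 * Real.log T) : ℝ)
          ≤ ZC.derivCount T (C * x ^ 2 * Real.log T) := by exact_mod_cast e2
      rw [hG, hD]
      calc (ZC.gapCount γ T x : ℝ) ≤ C1 * (ZC.derivCount T (C1 * x ^ 2 * Real.log T) + Real.log T) := e1
        _ ≤ C * (ZC.derivCount T (C * x ^ 2 * Real.log T) + Real.log T) := by gcongr
    · have e1 := h2 T x (hC2'.trans hT) hx (by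
        refine le_trans ?_ hxT
        gcongr)
      have e2 : ZC.gapCount γ T (C2 * x * Real.log T) ≤ ZC.gapCount γ T (C * x * Real.log T) :=
        ZC.gapCount_mono hγ' (by gcongr)
      have e3 : (ZC.gapCount γ T (C2 * x * Real.log T) : ℝ)
          ≤ ZC.gapCount γ T (C * x * Real.log T) := by exact_mod_cast e2
      rw [hG, hD]
      calc (ZC.derivCount T (x ^ 2) : ℝ) ≤ C2 * (ZC.gapCount γ T (C2 * x * Real.log T) + Real.log T) := e1
        _ ≤ C * (ZC.gapCount γ T (C * x * Real.log T) + Real.log T) := by gcongr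
  · change 2 * ZP.alpha γ = ZP.theta
    by_cases h : ∃ T0 : ℝ, ZP.RH T0
    · obtain ⟨T0, h⟩ := h
      obtain ⟨T1, hD⟩ := ZP.dh_of_rh h
      refine le_antisymm (ZP.two_alpha_le hγ' h hD) (ZP.theta_le_two_alpha hγ' h hD ?_)
      exact ZP.PairAux.deriv_zero_of_pair_of (@ZP.re_logDeriv_line) ZP.Lam_strip ZP.local_zeta h
    · have h1 : ZP.alpha γ = ⊥ := by
        by_contra hcon
        exact h (ZP.rh_of_alpha hγ' hcon)
      have h2 : ZP.theta = ⊥ := by
        by_contra hcon
        have h3 : (⊥ : EReal) < ZP.theta := bot_lt_iff_ne_bot.2 hcon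
        rw [ZP.theta_eq] at h3
        obtain ⟨T, hT⟩ := ZP.dz_eventually.1 (eventually_lt_of_lt_liminf h3)
        refine h (ZP.rh_of_dh (T0 := T) fun ρ h4 h5 => ?_)
        have h6 := hT ρ h5.le h4
        rw [ZP.derivExponent] at h6
        by_contra h7
        rw [if_pos (not_lt.1 h7)] at h6
        exact lt_irrefl _ h6
      rw [h1, h2]
      exact EReal.mul_bot_of_pos (by norm_num)

end Pool.Agent.Results.MP_af3d17_nt.DerivativeCounting
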