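import Pool.Agent.Lib.MP_af3d17_nt_h54.Final

/-!
# MP_af3d17_nt: the exponent of the small gaps and the backward heat flow
-/

set_option autoImplicit false

namespace Pool.Agent.Results.MP_af3d17_nt.HeatFlow

open Filter Topology MeasureTheory ProbabilityTheory

/-- The nontrivial zeros of the Riemann zeta function with positive ordinate. -/
def IsUpperZero (ρ : ℂ) : Prop := riemannZeta ρ = 0 ∧ 0 < ρ.re ∧ ρ.re < 1 ∧ 0 < ρ.im

/-- `γ 0 ≤ γ 1 ≤ γ 2 ≤ ⋯` are the ordinates of the nontrivial zeros with positive ordinate, each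
repeated according to multiplicity: every real number `t` occurs in the sequence as many times as
there are pairs `(ρ, k)` with `ρ` such a zero of ordinate `t` and `k` smaller than its order.
(`γ n` is the number `γ_{n+1}` of the problem.) -/
structure IsOrdinateSeq (γ : ℕ → ℝ) : Prop where
  mono : Monotone γ
  count : ∀ t : ℝ, {n | γ n = t}.encard = {p : ℂ × ℕ | IsUpperZero p.1 ∧ p.1.im = t ∧
    (p.2 : ℕ∞) < analyticOrderAt riemannZeta p.1}.encard

/-- `log (γ_{n+2} - γ_{n+1}) / log (n + 1)`, with `log 0 = -∞`. -/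
noncomputable def gapExponent (γ : ℕ → ℝ) (n : ℕ) : EReal :=
  if γ (n + 1) = γ n then ⊥ else ((Real.log (γ (n + 1) - γ n) / Real.log (n + 1) : ℝ) : EReal)

/-- The exponent `α` of the problem. -/
noncomputable def alpha (γ : ℕ → ℝ) : EReal := liminf (gapExponent γ) atTop

/-- Riemann's entire function `ξ(s) = s (s - 1) π^(-s/2) Γ(s/2) ζ(s) / 2`, written with
`Λ₀(s) = π^(-s/2) Γ(s/2) ζ(s) + 1/s + 1/(1 - s)`. -/
noncomputable def xi (s : ℂ) : ℂ := (s * (s - 1) * completedRiemannZeta₀ s + 1) / 2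

/-- The backward heat flow of `ξ`: the average `ξ_h(s)` of `ξ(s + i h X)` over a standard Gaussian
variable `X`. -/
noncomputable def heatXi (h : ℝ) (s : ℂ) : ℂ :=
  ∫ x : ℝ, xi (s + h * x * Complex.I) ∂(gaussianReal 0 1)

/-- The pairs `(h, s)`, `h > 0`, where `s` is a zero of `ξ_h` off the critical line, as
`|s| → ∞`. -/
noncomputable def heatZeros : Filter (ℝ × ℂ) :=
  comap (fun p => ‖p.2‖) atTop ⊓ 𝓟 {p | 0 < p.1 ∧ heatXi p.1 p.2 = 0 ∧ p.2.re ≠ 1 / 2}

/-- `log h / log |s|` -/
noncomputable def heatExponent (p : ℝ × ℂ) : EReal :=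
  ((Real.log p.1 / Real.log ‖p.2‖ : ℝ) : EReal)

/-- The exponent `β`: the liminf of `log h / log |s|` over the zeros `s` off the critical line of
the functions `ξ_h`, `h > 0`, as `|s| → ∞`. -/
noncomputable def beta : EReal := liminf heatExponent heatZeros

/-- Unconditionally, `α = min(0, β)`. -/
theorem result (γ : ℕ → ℝ) (hγ : IsOrdinateSeq γ) : alpha γ = min 0 beta :=
  HF.alpha_eq (γ := γ) ⟨hγ.mono, hγ.count⟩

end Pool.Agent.Results.MP_af3d17_nt.HeatFlow
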