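import Pool.Agent.Lib.MP_af3d17_nt_h31.Weight

/-!
# MP_af3d17_nt: all clusters of zeros, their number and their exponents, from the prime numbers
-/

set_option autoImplicit false

namespace Pool.Agent.Results.MP_af3d17_nt.PrimeClusters

open Filter Topology MeasureTheory

/-- The nontrivial zeros of the Riemann zeta function with positive ordinate. -/
def IsUpperZero (ρ : ℂ) : Prop := riemannZeta ρ = 0 ∧ 0 < ρ.re ∧ ρ.re < 1 ∧ 0 < ρ.im

/-- `γ 0 ≤ γ 1 ≤ γ 2 ≤ ⋯` are the ordinates of the nontrivial zeros with positive ordinate, each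
repeated according to multiplicity: every real number `t` occurs in the sequence as many times as
there are pairs `(ρ, k)` with `ρ` such a zero of ordinate `t` and `k` smaller than its order.
(`γ n` is the number `γ_{n+1}` of the problem.) -/
structure IsOrdinateSeq (γ : ℕ → ℝ) : Prop where
  mono : Monotone γ
  count : ∀ t : ℝ, {n | γ n = t}.encard = {p : ℂ × ℕ | IsUpperZero p.1 ∧ p.1.im = t ∧
    (p.2 : ℕ∞) < analyticOrderAt riemannZeta p.1}.encard

/-- `log (γ_{n+1+j} - γ_{n+1}) / log (n + 1)`, with `log 0 = -∞`. -/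
noncomputable def clusterExponent (γ : ℕ → ℝ) (j n : ℕ) : EReal :=
  if γ (n + j) = γ n then ⊥ else ((Real.log (γ (n + j) - γ n) / Real.log (n + 1) : ℝ) : EReal)

/-- The exponent `α_j` of the clusters of `j + 1` consecutive ordinates; `α_1` is the exponent `α`
of the problem. -/
noncomputable def alpha (γ : ℕ → ℝ) (j : ℕ) : EReal := liminf (clusterExponent γ j) atTop

/-- The sum over prime powers `D_k(t) = (1 / k!) ∑ Λ(n) (log n)^k n^(-3/2 - it)` (an absolutely
convergent series). -/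
noncomputable def primeSum (k : ℕ) (t : ℝ) : ℂ :=
  (∑' n : ℕ, (ArithmeticFunction.vonMangoldt n : ℂ) * (Real.log n : ℂ) ^ k /
    (n : ℂ) ^ (3 / 2 + t * Complex.I)) / (k.factorial : ℂ)

/-- `m_c(t) = sup_{k ≥ t^c} |D_k(t)|`, an extended real number. -/
noncomputable def peak (c t : ℝ) : EReal :=
  ⨆ k : ℕ, ⨆ _ : t ^ c ≤ (k : ℝ), ((‖primeSum k t‖ : ℝ) : EReal)

/-- The number of `n` with `a ≤ γ_n ≤ b` and `γ_{n+j} - γ_n ≤ g`. -/
noncomputable def clusters (γ : ℕ → ℝ) (j : ℕ) (a b g : ℝ) : ℕ :=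
  {n | a ≤ γ n ∧ γ n ≤ b ∧ γ (n + j) - γ n ≤ g}.ncard

/-- The zeros to the right of the critical line with ordinate in `[a, b]`. -/
def offZeros (a b : ℝ) : Set ℂ := {ρ | IsUpperZero ρ ∧ 1 / 2 < ρ.re ∧ a ≤ ρ.im ∧ ρ.im ≤ b}

/-- The sum of `√(β - 1/2)` over these zeros `β + iγ`. -/
noncomputable def offSum (a b : ℝ) : ENNReal :=
  ∑' ρ : offZeros a b, ENNReal.ofReal (Real.sqrt ((ρ : ℂ).re - 1 / 2))

/-- `E_j(g; a, b)`, the sum of `g` times the number of clusters and of `offSum a b`. -/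
noncomputable def weight (γ : ℕ → ℝ) (j : ℕ) (a b g : ℝ) : ENNReal :=
  ENNReal.ofReal g * (clusters γ j a b g : ENNReal) + offSum a b

/-- All but finitely many nontrivial zeros are on the critical line (multiplicities are allowed). -/
def AlmostRH : Prop := ∃ T : ℝ, ∀ ρ : ℂ, IsUpperZero ρ → T < ρ.im → ρ.re = 1 / 2

/-- Up to factors `T^(±ε)` and a change of `c` by `2ε`, the measure of the set of the
`t ∈ [T, 2T]` with `m_c(t) ≥ λ`, `j < λ < j + 1`, is `E_j(T^(-c/2); T, 2T)`. The exponents `α_j`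
are given by the limsup of `m_c`, without any hypothesis if `j = 1`. -/
theorem result (γ : ℕ → ℝ) (hγ : IsOrdinateSeq γ) (j : ℕ) :
    (∀ lam c ε : ℝ, j < lam → lam < j + 1 → 0 < ε → ε < c → ∀ᶠ T : ℝ in atTop,
      ENNReal.ofReal (T ^ (-ε)) * weight γ j (T + 1) (2 * T - 1) (T ^ (-c / 2 - ε)) ≤
          volume {t : ℝ | T ≤ t ∧ t ≤ 2 * T ∧ (lam : EReal) ≤ peak c t} ∧
      volume {t : ℝ | T ≤ t ∧ t ≤ 2 * T ∧ (lam : EReal) ≤ peak c t} ≤
          ENNReal.ofReal (T ^ ε) * weight γ j (T - 1) (2 * T + 1) (T ^ (-c / 2 + ε))) ∧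
    ((AlmostRH ∨ j = 1) → -(2 * alpha γ j) = sInf {x : EReal | ∃ c : ℝ, 0 < c ∧
      x = (c : EReal) ∧ limsup (peak c) atTop ≤ ((j : ℝ) : EReal)}) := by
  have hγ' : ZP.IsOrdinateSeq γ := ⟨hγ.mono, hγ.count⟩
  refine ⟨fun lam c ε h1 h2 hε hc => (ZP31.weight_le_volume hγ' hε (hε.trans hc) h2).and
    (ZP31.volume_le_weight hγ' hε hc h1), fun hj => ?_⟩
  by_cases h : AlmostRH
  · obtain ⟨T0, hT0⟩ := h
    exact ZP31.neg_two_alpha_eq hγ' (T0 := T0) hT0
  · obtain rfl : j = 1 := hj.resolve_left h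
    have hnot : ∀ c : ℝ, limsup (peak c) atTop = ⊤ := by
      intro c
      refine ZP31.level_eq_top ?_ c
      intro T
      by_contra hcon
      push Not at hcon
      exact h ⟨T, fun ρ h1 h2 => hcon ρ h1 h2⟩
    -- `α_1 = -∞` if infinitely many zeros are off the line
    have hbot : alpha γ 1 = ⊥ := by
      by_contra hcon
      obtain ⟨T0, hT0⟩ := ZP.rh_of_alpha (γ := γ) hγ' hcon
      exact h ⟨T0, fun ρ h1 h2 => (hT0 ρ h1 h2).1⟩
    have e : {x : EReal | ∃ c : ℝ, 0 < c ∧ x = (c : EReal) ∧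
        limsup (peak c) atTop ≤ (((1 : ℕ) : ℝ) : EReal)} = ∅ := by
      refine Set.eq_empty_of_forall_notMem ?_
      rintro x ⟨c, hc, rfl, hlev⟩
      rw [hnot c, top_le_iff] at hlev
      exact EReal.coe_ne_top _ hlev
    rw [e, sInf_empty, hbot, EReal.mul_bot_of_pos (by norm_num), EReal.neg_bot]

end Pool.Agent.Results.MP_af3d17_nt.PrimeClusters
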