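import Pool.Agent.Lib.SELB.Main
import Pool.Agent.Lib.APX.Final

/-!
# MP_af3d17_nt: the exponent of the small gaps from Riesz means of Selberg's function
-/

set_option autoImplicit false

namespace Pool.Agent.Results.MP_af3d17_nt.SelbergFormula

open Filter Topology Asymptotics

/-- The nontrivial zeros of the Riemann zeta function with positive ordinate. -/
def IsUpperZero (ρ : ℂ) : Prop := riemannZeta ρ = 0 ∧ 0 < ρ.re ∧ ρ.re < 1 ∧ 0 < ρ.im

/-- `γ 0 ≤ γ 1 ≤ γ 2 ≤ ⋯` are the ordinates of the nontrivial zeros with positive ordinate, each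
repeated according to multiplicity: every real number `t` occurs in the sequence as many times as
there are pairs `(ρ, k)` with `ρ` such a zero of ordinate `t` and `k` smaller than its order.
(`γ n` is the number `γ_{n+1}` of the problem.) -/
structure IsOrdinateSeq (γ : ℕ → ℝ) : Prop where
  mono : Monotone γ
  count : ∀ t : ℝ, {n | γ n = t}.encard = {p : ℂ × ℕ | IsUpperZero p.1 ∧ p.1.im = t ∧
    (p.2 : ℕ∞) < analyticOrderAt riemannZeta p.1}.encard

/-- `log (γ_{n+2} - γ_{n+1}) / log (n + 1)`, with `log 0 = -∞`. -/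
noncomputable def gapExponent (γ : ℕ → ℝ) (n : ℕ) : EReal :=
  if γ (n + 1) = γ n then ⊥ else ((Real.log (γ (n + 1) - γ n) / Real.log (n + 1) : ℝ) : EReal)

/-- The exponent `α` of the problem. -/
noncomputable def alpha (γ : ℕ → ℝ) : EReal := liminf (gapExponent γ) atTop

/-- Selberg's function `Λ₂ = Λ log + Λ * Λ`. -/
noncomputable def sel : ArithmeticFunction ℝ :=
  ArithmeticFunction.pmul ArithmeticFunction.vonMangoldt ArithmeticFunction.log +
    ArithmeticFunction.vonMangoldt * ArithmeticFunction.vonMangoldt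

/-! ### Riesz means of real order -/

/-- The Riesz mean `(1 / Γ(κ + 1)) ∑_{n ≤ x} a(n) log(x / n)^κ`. -/
noncomputable def riesz (κ : ℝ) (a : ℕ → ℝ) (x : ℝ) : ℝ :=
  (∑ n ∈ Finset.Icc 1 ⌊x⌋₊, a n * Real.log (x / n) ^ κ) / Real.Gamma (κ + 1)

/-- `f` is a finite sum of terms `c x^ρ (log x)^j`, up to `O(g)` as `x → ∞`. -/
def HasError (f g : ℝ → ℝ) : Prop := ∃ (S : Finset (ℂ × ℕ)) (c : ℂ × ℕ → ℂ),
  (fun x : ℝ => (f x : ℂ) - ∑ p ∈ S, c p * (x : ℂ) ^ p.1 * ((Real.log x : ℝ) : ℂ) ^ p.2)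
    =O[atTop] g

/-- The Riesz means of order `κ` of `Λ` and of the `m`-th convolution power of `Λ₂` are finite sums
of terms `c x^ρ (log x)^j`, up to `O(√x (log x)^(m - 1))`. -/
def Good (m : ℕ) (κ : ℝ) : Prop :=
  HasError (riesz κ fun n => ArithmeticFunction.vonMangoldt n)
    (fun x => √x * Real.log x ^ (m - 1)) ∧
  HasError (riesz κ fun n => (sel ^ m) n) (fun x => √x * Real.log x ^ (m - 1))

/-- `κ_m`, the infimum of the good orders (`+∞` if there are none). -/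
noncomputable def kappa (m : ℕ) : EReal :=
  sInf ((fun κ : ℝ => (κ : EReal)) '' {κ : ℝ | 0 < κ ∧ Good m κ})

/-! ### Twisted Riesz means of integral order -/

/-- The Riesz mean `(1/κ!) ∑_{n ≤ x} a(n) n^(-it) log^κ (x/n)`. -/
noncomputable def twisted (κ : ℕ) (a : ℕ → ℝ) (t x : ℝ) : ℂ :=
  (∑ n ∈ Finset.Icc 1 ⌊x⌋₊, (a n : ℂ) * (n : ℂ) ^ (-(t * Complex.I)) *
    ((Real.log (x / n) : ℝ) : ℂ) ^ κ) / (κ.factorial : ℂ)

/-- The residue at `s = w - it` of `(p / (s - (w - it))^2 + q / (s - (w - it))) x^s / s^(κ+1)`. -/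
noncomputable def residue (κ : ℕ) (p q w : ℂ) (t x : ℝ) : ℂ :=
  (x : ℂ) ^ (w - t * Complex.I) * ((p * (Real.log x : ℂ) + q) / (w - t * Complex.I) ^ (κ + 1) -
    (κ + 1) * p / (w - t * Complex.I) ^ (κ + 2))

/-- The twisted Riesz means of order `κ` of `a` are finite sums of such residues, with `w`, `p`, `q`
independent of `t`, up to `O((1 + |t|)^(A + ε) √x)`, uniformly in all real `t` and `x ≥ 1`. -/
def Expands (κ : ℕ) (a : ℕ → ℝ) (A : ℝ) : Prop :=
  ∃ (S : Finset ℂ) (p q : ℂ → ℂ), ∀ ε : ℝ, 0 < ε → ∃ C : ℝ, ∀ t x : ℝ, 1 ≤ x →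
    ‖twisted κ a t x - ∑ w ∈ S, residue κ (p w) (q w) w t x‖ ≤ C * (1 + |t|) ^ (A + ε) * √x

/-- Without any hypothesis. (1) `κ_m ≤ -m α ≤ κ_m + 1` for `m ≥ 2`; hence `α = -lim κ_m / m`.
(2) For integers `κ` and `0 ≤ A < κ`: `α ≥ -A` if and only if the Riesz means of order `κ` of
`Λ(n) n^(-it)` and of `Λ₂(n) n^(-it)` expand up to `O((1 + |t|)^(A + ε) √x)`. -/
theorem result (γ : ℕ → ℝ) (hγ : IsOrdinateSeq γ) :
    ((∀ m : ℕ, 2 ≤ m → kappa m ≤ -(m * alpha γ) ∧ -(m * alpha γ) ≤ kappa m + 1) ∧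
      Tendsto (fun m : ℕ => kappa m / m) atTop (𝓝 (-alpha γ))) ∧
    ∀ (κ : ℕ) (A : ℝ), 0 ≤ A → A < κ → (((-A : ℝ) : EReal) ≤ alpha γ ↔
      Expands κ (fun n => ArithmeticFunction.vonMangoldt n) A ∧ Expands κ (fun n => sel n) A) := by
  have hγ' : Pool.Agent.ZP.IsOrdinateSeq γ := ⟨hγ.mono, hγ.count⟩
  have h1 := Pool.Agent.APX.apx_main γ hγ'
  refine ⟨⟨h1.1, h1.2.1⟩, fun κ A hA hAκ => ?_⟩
  have h2 := Pool.Agent.SELB.selb_main γ hγ' κ A hA hAκ
  have h3 : Pool.Agent.SELB.selberg = fun n => sel n := funext Pool.Agent.SELB.selberg_eq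
  rw [h3] at h2
  exact h2

end Pool.Agent.Results.MP_af3d17_nt.SelbergFormula
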